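import Pool.Agent.Lib.MP_fec922_lc.Final

/-!
A deterministic polynomial time bicriteria approximation with polylogarithmic ratios for the
degree-bounded minimum cost group Steiner tree problem on general graphs.
-/

namespace Pool.Agent.Results.MP_fec922_lc.PolylogApprox

/-- The input: the adjacency matrix with the edge costs, the incidence matrix of the groups and
the list of the degree bounds. -/
def code {n k : ℕ} (G : SimpleGraph (Fin n)) [DecidableRel G.Adj] (c : Sym2 (Fin n) → ℚ)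
    (g : Fin k → Finset (Fin n)) (b : Fin n → ℕ) :
    List (List (Bool × ℚ)) × List (List Bool) × List ℕ :=
  (List.ofFn fun u => List.ofFn fun v => (decide (G.Adj u v), c s(u, v)),
    List.ofFn fun i => List.ofFn fun v => decide (v ∈ g i), List.ofFn b)

/-- A subtree that meets every group. -/
def GroupTree {n k : ℕ} {G : SimpleGraph (Fin n)} (g : Fin k → Finset (Fin n))
    (T : G.Subgraph) : Prop :=
  T.coe.IsTree ∧ ∀ i, ∃ v ∈ T.verts, v ∈ g i

/-- The total cost of the edges of a subgraph. -/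
noncomputable def cost {n : ℕ} {G : SimpleGraph (Fin n)} (c : Sym2 (Fin n) → ℚ)
    (T : G.Subgraph) : ℚ :=
  ∑ᶠ e ∈ T.edgeSet, c e

open Finset Pool.Agent.Lib.MP_fec922_lc in
theorem result : ∃ (d : ℕ)
    (A : List (List (Bool × ℚ)) × List (List Bool) × List ℕ → List ℕ × List (ℕ × ℕ)),
    N68a2faeb.IsPolyTime A ∧
    ∀ (n k : ℕ) (G : SimpleGraph (Fin n)) [DecidableRel G.Adj] (c : Sym2 (Fin n) → ℚ)
      (g : Fin k → Finset (Fin n)) (b : Fin n → ℕ),
      (∀ e ∈ G.edgeSet, 0 ≤ c e) → (∀ v, 0 < b v) →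
      ∀ T : G.Subgraph, GroupTree g T → (∀ v, (T.neighborSet v).ncard ≤ b v) →
        ∃ T' : G.Subgraph, (∀ v, v ∈ T'.verts ↔ v.1 ∈ (A (code G c g b)).1) ∧
          (∀ u v, T'.Adj u v ↔
            (u.1, v.1) ∈ (A (code G c g b)).2 ∨ (v.1, u.1) ∈ (A (code G c g b)).2) ∧
          GroupTree g T' ∧
          cost c T' ≤ ((Nat.log 2 (n + k) + 2) ^ d : ℕ) * cost c T ∧
          ∀ v, (T'.neighborSet v).ncard ≤ (Nat.log 2 (n + k) + 2) ^ d * b v := by
  classical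
  obtain ⟨d, hd⟩ := exists_exponent
  refine ⟨d, alg, alg_pt.isPolyTime, fun n k G _ c g b hc hb T hT hdeg => ?_⟩
  set J := code G c g b with hJ
  set I := toI J with hI
  have e1 : I.1.length = n := by simp [hI, toI, hJ, code]
  have e2 : I.2.2.length = k := by simp [hI, toI, hJ, code]
  have e3 : ∀ v : Fin n, g1 I.1 v.1 = b v := fun v => by simp [hI, toI, hJ, code, g1]
  have e4 : ∀ u w : Fin n, ent I u.1 w.1 =
      (decide (G.Adj u w), (c s(u, w)).num.toNat * (den J.1 / (c s(u, w)).den)) := by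
    intro u w
    wlog h : u ≤ w generalizing u w
    · rw [ent_comm, this w u (le_of_not_ge h), Sym2.eq_swap]
      simp only [G.adj_comm]
    have h' : u.1 ≤ w.1 := h
    simp [ent, h', hI, toI, hJ, code]
  have e5 : ∀ u w, adj I u w = true ↔ ∃ x y : Fin n, x.1 = u ∧ y.1 = w ∧ G.Adj x y := by
    intro u w
    constructor
    · intro h
      simp only [adj, e1, Bool.and_eq_true, decide_eq_true_eq] at h
      have := e4 ⟨u, h.1.1.1⟩ ⟨w, h.1.1.2⟩
      simp only at this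
      rw [this] at h
      exact ⟨_, _, rfl, rfl, of_decide_eq_true h.2⟩
    · rintro ⟨x, y, rfl, rfl, h⟩
      have := h.ne
      simp [adj, e1, e4, h, Fin.val_inj, this]
  let f : Sym2 ℕ → ℕ := Sym2.lift ⟨ci I, ci_comm I⟩
  have e6 : ∀ S : G.Subgraph, ((∑ e ∈ S.edgeSet.toFinite.toFinset, f (e.map Fin.val) : ℕ) : ℚ) =
      den J.1 * cost c S := by
    intro S
    rw [cost, finsum_mem_eq_finite_toFinset_sum _ S.edgeSet.toFinite, mul_sum, Nat.cast_sum]
    refine sum_congr rfl fun e he => ?_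
    have he : e ∈ G.edgeSet := S.edgeSet_subset (by simpa using he)
    induction e using Sym2.ind with
    | h u w =>
      change ((ent I u.1 w.1).2 : ℚ) = _
      rw [e4]
      refine den_cast (x := (decide (G.Adj u w), c s(u, w))) ?_ (hc _ he)
      simp only [hJ, code, List.mem_flatten, List.mem_ofFn]
      exact ⟨_, ⟨u, rfl⟩, List.mem_ofFn.2 ⟨w, rfl⟩⟩
  have e7 : ∀ l ∈ I.2.2, ∃ i, ∀ v, v ∈ l ↔ ∃ x : Fin n, x.1 = v ∧ x ∈ g i := by
    intro l hl
    simp only [hI, toI, hJ, code, List.mem_map, List.mem_ofFn] at hl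
    obtain ⟨_, ⟨i, rfl⟩, rfl⟩ := hl
    refine ⟨i, fun v => ⟨fun h => ?_, ?_⟩⟩
    · simp only [List.mem_filter, List.mem_range, List.length_ofFn] at h
      exact ⟨⟨v, h.1⟩, rfl, by simpa [h.1] using h.2⟩
    · rintro ⟨x, rfl, h⟩
      simp [h]
  have e8 : ∀ i, ∃ l ∈ I.2.2, ∀ x : Fin n, x.1 ∈ l → x ∈ g i := by
    intro i
    simp only [hI, toI, hJ, code, List.mem_map, List.mem_ofFn]
    exact ⟨_, ⟨_, ⟨i, rfl⟩, rfl⟩, fun x h => by simpa using h⟩
  let te : ℕ → ℕ → Bool := fun u w => decide (∃ x y : Fin n, x.1 = u ∧ y.1 = w ∧ T.Adj x y)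
  have e9 : ∀ u w : Fin n, te u.1 w.1 = decide (T.Adj u w) := fun u w => by
    simp [te, Fin.val_inj]
  have S : ISol I te fun v => ∃ x : Fin n, x.1 = v ∧ x ∈ T.verts := by
    refine ⟨fun u w => ?_, fun u w h => ?_, fun u w h => ?_, ?_, ?_, ?_, fun v hv => ?_,
      fun l hl => ?_⟩
    · simp only [te, decide_eq_decide]
      exact ⟨fun ⟨x, y, a, b, h⟩ => ⟨y, x, b, a, h.symm⟩, fun ⟨x, y, a, b, h⟩ =>
        ⟨y, x, b, a, h.symm⟩⟩
    · obtain ⟨x, y, a, b, h⟩ := of_decide_eq_true h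
      exact (e5 _ _).2 ⟨x, y, a, b, h.adj_sub⟩
    · obtain ⟨x, y, a, b, h⟩ := of_decide_eq_true h
      exact ⟨x, a, h.fst_mem⟩
    · rintro _ ⟨x, rfl, -⟩
      exact x.2.trans_eq e1.symm
    · obtain ⟨x⟩ := hT.1.connected.nonempty
      exact ⟨_, x.1, rfl, x.2⟩
    · rintro _ _ ⟨x, rfl, hx⟩ ⟨y, rfl, hy⟩
      obtain ⟨w⟩ := hT.1.connected ⟨x, hx⟩ ⟨y, hy⟩
      obtain ⟨l, a1, a2⟩ := walk_ch w
      exact ⟨l, a1, fun e he => decide_eq_true (a2 e he)⟩
    · rw [e1] at hv ⊢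
      obtain ⟨x, rfl⟩ : ∃ x : Fin n, x.1 = v := ⟨⟨v, hv⟩, rfl⟩
      rw [e3, ← Fin.sum_univ_eq_sum_range fun w => (te x.1 w).toNat]
      refine le_trans (le_of_eq ?_) (hdeg x)
      have : T.neighborSet x = ↑(univ.filter fun w => T.Adj x w) := by ext w; simp
      rw [this, Set.ncard_coe_finset, card_eq_sum_ones, sum_filter]
      exact sum_congr rfl fun w _ => by by_cases h : T.Adj x w <;> simp [e9, h]
    · obtain ⟨i, hi⟩ := e7 l hl
      obtain ⟨v, a1, a2⟩ := hT.2 i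
      exact ⟨v.1, (hi _).2 ⟨v, rfl, a2⟩, v, rfl, a1⟩
  have hn : 0 < n := by
    obtain ⟨x⟩ := hT.1.connected.nonempty
    exact x.1.pos
  obtain ⟨⟨H, t, P, hH⟩, h2, h3⟩ := algI_spec S fun v hv => by
    rw [e1] at hv
    exact (e3 ⟨v, hv⟩).symm ▸ hb _
  obtain ⟨c1, c2, c3⟩ := check_iff.1 h2
  obtain ⟨d1, d2⟩ := hd n k hn
  simp only [iM, iH, e1, e2] at c1 c3 h3
  change ∃ T' : G.Subgraph, (∀ v, v ∈ T'.verts ↔ v.1 ∈ (algI I).1) ∧
    (∀ u v, T'.Adj u v ↔ (u.1, v.1) ∈ (algI I).2 ∨ (v.1, u.1) ∈ (algI I).2) ∧ _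
  generalize algI I = p at *
  let T' := sub G p (fun u v h => by
    obtain ⟨x, y, a1, a2, a3⟩ := (e5 _ _).1 (hH _ (P.sub _ h))
    rwa [← Fin.val_injective a1, ← Fin.val_injective a2]) P.ends
  have hA : ∀ u v, T'.Adj u v ↔ (u.1, v.1) ∈ p.2 ∨ (v.1, u.1) ∈ p.2 := fun _ _ => Iff.rfl
  refine ⟨T', fun _ => Iff.rfl, hA, ⟨isTree_of P c1 (fun _ => Iff.rfl) hA, fun i => ?_⟩, ?_,
    fun v => ?_⟩
  · obtain ⟨l, a1, a2⟩ := e8 i
    obtain ⟨v, a3, a4⟩ := c2 l a1
    exact ⟨⟨v, c1 v a4⟩, a4, a2 _ a3⟩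
  · have a1 : ∑ e ∈ T'.edgeSet.toFinite.toFinset, f (e.map Fin.val) ≤ wt (ci I) p.2 :=
      edge_sum_le hA f
    have a2 : ∑ u ∈ range n, ∑ w ∈ range n, (te u w).toNat * ci I u w ≤
        2 * ∑ e ∈ T.edgeSet.toFinite.toFinset, f (e.map Fin.val) := by
      refine le_trans (le_of_eq ?_) (dart_sum_le T fun e => f (e.map Fin.val))
      rw [← Fin.sum_univ_eq_sum_range fun u => ∑ w ∈ range n, (te u w).toNat * ci I u w]
      refine sum_congr rfl fun u _ => ?_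
      rw [← Fin.sum_univ_eq_sum_range fun w => (te u.1 w).toNat * ci I u.1 w]
      exact sum_congr rfl fun w _ => by rw [e9]; rfl
    have a3 : ∑ e ∈ T'.edgeSet.toFinite.toFinset, f (e.map Fin.val) ≤
        (Nat.log 2 (n + k) + 2) ^ d * ∑ e ∈ T.edgeSet.toFinite.toFinset, f (e.map Fin.val) := by
      refine a1.trans (h3.trans ((Nat.mul_le_mul_left _ a2).trans ?_))
      rw [← mul_assoc, mul_comm _ 2]
      exact Nat.mul_le_mul_right _ d1
    have a4 := (Nat.cast_le (α := ℚ)).2 a3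
    rw [Nat.cast_mul, e6, e6, mul_left_comm] at a4
    exact le_of_mul_le_mul_left a4 (Nat.cast_pos.2 (den_pos _))
  · exact (deg_le hA v).trans ((c3 _ v.2).trans (e3 v ▸ Nat.mul_le_mul_right _ d2))

end Pool.Agent.Results.MP_fec922_lc.PolylogApprox
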